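import Pool.Agent.H41.T1.S5
import Pool.Agent.H34.HYP.CTX
import Pool.Agent.H59.HYP.CTM
import Pool.Agent.H2.HYP.CX3
import Pool.Agent.H52.HYP.CX4
import Pool.Agent.H37.T1.CTRK
import Pool.Agent.H77.T1.CT1K

/-!
# NF: counting pairs of symmetric matrices, general lemmas
-/

set_option autoImplicit false
set_option linter.overlappingInstances false
set_option linter.unusedSectionVars false

namespace Pool.NF.Cnt

open Polynomial Matrix Pool.HYP Pool.T1 IsDedekindDomain

/-- The product of the `M i j` for `i ≤ j`. -/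
noncomputable def prLe {n : ℕ} (M : Fin n → Fin n → ℝ) : ℝ :=
  ∏ i, ∏ j, (if i ≤ j then M i j else 1)

/-- The product of the `M i j` for `i < j`. -/
noncomputable def prLt {n : ℕ} (M : Fin n → Fin n → ℝ) : ℝ :=
  ∏ i, ∏ j, (if i < j then M i j else 1)

section Sym

variable {R : Type} [CommRing R] {n : ℕ}

/-- The number of symmetric matrices with entries in given sets. -/
theorem sym_cnt (A : Fin n → Fin n → Set R) (hA : ∀ i j, (A i j).Finite)
    (M : Fin n → Fin n → ℝ) (hM : ∀ i j, i ≤ j → ((A i j).ncard : ℝ) ≤ M i j) :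
    {G : Matrix (Fin n) (Fin n) R | Gᵀ = G ∧ ∀ i j, G i j ∈ A i j}.Finite ∧
    ({G : Matrix (Fin n) (Fin n) R | Gᵀ = G ∧ ∀ i j, G i j ∈ A i j}.ncard : ℝ) ≤ prLe M := by
  classical
  have hfin : {G : Matrix (Fin n) (Fin n) R | Gᵀ = G ∧ ∀ i j, G i j ∈ A i j}.Finite := by
    have h1 : (Set.univ.pi fun i : Fin n => Set.univ.pi fun j : Fin n => A i j).Finite :=
      Set.Finite.pi fun i => Set.Finite.pi fun j => hA i j
    refine h1.subset ?_
    rintro S ⟨_, h2⟩ i _ j _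
    exact h2 i j
  refine ⟨hfin, ?_⟩
  let B : Finset (Fin n → Fin n → R) := Fintype.piFinset fun i => Fintype.piFinset fun j =>
    if i ≤ j then (hA i j).toFinset else {0}
  have hBc : (B.card : ℝ) = ∏ i, ∏ j, (if i ≤ j then ((A i j).ncard : ℝ) else 1) := by
    rw [Fintype.card_piFinset, Nat.cast_prod]
    refine Finset.prod_congr rfl fun i _ => ?_
    rw [Fintype.card_piFinset, Nat.cast_prod]
    refine Finset.prod_congr rfl fun j _ => ?_
    by_cases h : i ≤ j
    · rw [if_pos h, if_pos h, Set.ncard_eq_toFinset_card _ (hA i j)]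
    · rw [if_neg h, if_neg h, Finset.card_singleton, Nat.cast_one]
  have h1 : hfin.toFinset.card ≤ B.card := by
    apply Finset.card_le_card_of_injOn (fun S i j => if i ≤ j then S i j else 0)
    · intro S hS
      rw [Finset.mem_coe, Set.Finite.mem_toFinset] at hS
      rw [Finset.mem_coe, Fintype.mem_piFinset]
      intro i
      rw [Fintype.mem_piFinset]
      intro j
      by_cases hij : i ≤ j
      · simp only [if_pos hij]
        rw [Set.Finite.mem_toFinset]
        exact hS.2 i j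
      · simp only [if_neg hij]
        exact Finset.mem_singleton_self _
    · intro S hS S' hS' heq
      rw [Finset.mem_coe, Set.Finite.mem_toFinset] at hS hS'
      refine Pool.T137.sym_ext hS.1 hS'.1 fun i j hij => ?_
      have h2 := congrFun (congrFun heq i) j
      simp only [if_pos hij] at h2
      exact h2
  rw [Set.ncard_eq_toFinset_card _ hfin]
  have h2 : ((hfin.toFinset.card : ℕ) : ℝ) ≤ B.card := by exact_mod_cast h1
  refine h2.trans ?_
  rw [hBc]
  unfold prLe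
  refine Finset.prod_le_prod (fun i _ => Finset.prod_nonneg fun j _ => ?_) fun i _ =>
    Finset.prod_le_prod (fun j _ => ?_) fun j _ => ?_
  · split_ifs <;> positivity
  · split_ifs <;> positivity
  · by_cases h : i ≤ j
    · rw [if_pos h, if_pos h]
      exact hM i j h
    · rw [if_neg h, if_neg h]

/-- The number of symmetric matrices with entries in given sets and with given residues. -/
theorem sym_res [IsDedekindDomain R] (hF : ∀ P : HeightOneSpectrum R, Finite (R ⧸ P.asIdeal))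
    (T : Finset (HeightOneSpectrum R))
    (X : ∀ P : HeightOneSpectrum R, Set (Matrix (Fin n) (Fin n) (R ⧸ P.asIdeal)))
    (B : Fin n → Fin n → Set R) (hB : ∀ i j, (B i j).Finite) (M : Fin n → Fin n → ℝ)
    (hM : ∀ i j, i ≤ j → ∀ r : R, ({b ∈ B i j | b - r ∈ ∏ P ∈ T, P.asIdeal}.ncard : ℝ) *
      ((∏ P ∈ T, Nm P : ℕ) : ℝ) ≤ M i j) :
    ({S : Matrix (Fin n) (Fin n) R | Sᵀ = S ∧ (∀ i j, S i j ∈ B i j) ∧
      ∀ P ∈ T, S.map (Ideal.Quotient.mk P.asIdeal) ∈ X P}.ncard : ℝ) *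
        ((∏ P ∈ T, Nm P : ℕ) : ℝ) ^ (n * (n + 1) / 2) ≤
      ((∏ P ∈ T, (X P).ncard : ℕ) : ℝ) * prLe M := by
  classical
  have hfX : ∀ P : HeightOneSpectrum R, (X P).Finite := fun P => by
    have := hF P
    exact Set.toFinite _
  set Q : ℕ := ∏ P ∈ T, Nm P with hQ
  set I : Ideal R := ∏ P ∈ T, P.asIdeal with hI
  set 𝒮 : Set (Matrix (Fin n) (Fin n) R) := {S | Sᵀ = S ∧ (∀ i j, S i j ∈ B i j) ∧
      ∀ P ∈ T, S.map (Ideal.Quotient.mk P.asIdeal) ∈ X P} with h𝒮
  have hfin : 𝒮.Finite := by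
    have h1 : (Set.univ.pi fun i : Fin n => Set.univ.pi fun j : Fin n => B i j).Finite :=
      Set.Finite.pi fun i => Set.Finite.pi fun j => hB i j
    refine h1.subset ?_
    rintro S ⟨_, h2, _⟩ i _ j _
    exact h2 i j
  have hM0 : ∀ i j, 0 ≤ (if i ≤ j then M i j else 1 : ℝ) := fun i j => by
    by_cases h : i ≤ j
    · rw [if_pos h]
      exact le_trans (by positivity) (hM i j h 0)
    · rw [if_neg h]
      exact zero_le_one
  have hPM0 : 0 ≤ prLe M :=
    Finset.prod_nonneg fun i _ => Finset.prod_nonneg fun j _ => hM0 i j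
  let A : Finset (∀ P : T, Matrix (Fin n) (Fin n) (R ⧸ (P : HeightOneSpectrum R).asIdeal)) :=
    Fintype.piFinset (fun P : T => (hfX P).toFinset)
  have hA : A.card = ∏ P ∈ T, (X P).ncard := by
    rw [Fintype.card_piFinset, ← Finset.prod_coe_sort T (fun P => (X P).ncard)]
    refine Finset.prod_congr rfl fun P _ => ?_
    rw [Set.ncard_eq_toFinset_card _ (hfX P)]
  let ρ : Matrix (Fin n) (Fin n) R →
      (∀ P : T, Matrix (Fin n) (Fin n) (R ⧸ (P : HeightOneSpectrum R).asIdeal)) :=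
    fun S P => S.map (Ideal.Quotient.mk (P : HeightOneSpectrum R).asIdeal)
  have hρ : Set.MapsTo ρ (hfin.toFinset : Set (Matrix (Fin n) (Fin n) R)) A := by
    intro S hS
    rw [Finset.mem_coe, Set.Finite.mem_toFinset] at hS
    rw [Finset.mem_coe, Fintype.mem_piFinset]
    intro P
    rw [Set.Finite.mem_toFinset]
    exact hS.2.2 P P.2
  have hfib : ∀ b ∈ A, ({S ∈ hfin.toFinset | ρ S = b}.card : ℝ) * (Q : ℝ) ^ (n * (n + 1) / 2) ≤
      prLe M := by
    intro b _
    rcases Finset.eq_empty_or_nonempty {S ∈ hfin.toFinset | ρ S = b} with h0 | ⟨S₀, hS₀⟩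
    · rw [h0, Finset.card_empty, Nat.cast_zero, zero_mul]
      exact hPM0
    rw [Finset.mem_filter, Set.Finite.mem_toFinset] at hS₀
    have hfN : ∀ i j, {a ∈ B i j | a - S₀ i j ∈ I}.Finite := fun i j =>
      (hB i j).subset (Set.sep_subset _ _)
    let B' : Finset (Fin n → Fin n → R) := Fintype.piFinset fun i => Fintype.piFinset fun j =>
      if i ≤ j then (hfN i j).toFinset else {0}
    have hBc : (B'.card : ℝ) = ∏ i, ∏ j, (if i ≤ j then
        ({a ∈ B i j | a - S₀ i j ∈ I}.ncard : ℝ) else 1) := by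
      rw [Fintype.card_piFinset, Nat.cast_prod]
      refine Finset.prod_congr rfl fun i _ => ?_
      rw [Fintype.card_piFinset, Nat.cast_prod]
      refine Finset.prod_congr rfl fun j _ => ?_
      by_cases h : i ≤ j
      · rw [if_pos h, if_pos h, Set.ncard_eq_toFinset_card _ (hfN i j)]
      · rw [if_neg h, if_neg h, Finset.card_singleton, Nat.cast_one]
    have h1 : {S ∈ hfin.toFinset | ρ S = b}.card ≤ B'.card := by
      apply Finset.card_le_card_of_injOn (fun S i j => if i ≤ j then S i j else 0)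
      · intro S hS
        rw [Finset.mem_coe, Finset.mem_filter, Set.Finite.mem_toFinset] at hS
        rw [Finset.mem_coe, Fintype.mem_piFinset]
        intro i
        rw [Fintype.mem_piFinset]
        intro j
        by_cases hij : i ≤ j
        · simp only [if_pos hij]
          rw [Set.Finite.mem_toFinset]
          refine ⟨hS.1.2.1 i j, Pool.T137.mem_prod T _ fun P hP => ?_⟩
          have h2 := congrFun (hS.2.trans hS₀.2.symm) ⟨P, hP⟩
          have h3 := congrFun (congrFun h2 i) j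
          exact Ideal.Quotient.eq.mp h3
        · simp only [if_neg hij]
          exact Finset.mem_singleton_self _
      · intro S hS S' hS' heq
        rw [Finset.mem_coe, Finset.mem_filter, Set.Finite.mem_toFinset] at hS hS'
        refine Pool.T137.sym_ext hS.1.1 hS'.1.1 fun i j hij => ?_
        have h2 := congrFun (congrFun heq i) j
        simp only [if_pos hij] at h2
        exact h2
    have h1' : ({S ∈ hfin.toFinset | ρ S = b}.card : ℝ) ≤ B'.card := by exact_mod_cast h1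
    have h2 : (Q : ℝ) ^ (n * (n + 1) / 2) =
        ∏ i : Fin n, ∏ j : Fin n, (if i ≤ j then (Q : ℝ) else 1) := by
      have h3 : Q ^ (n * (n + 1) / 2) =
          ∏ i : Fin n, ∏ j : Fin n, (if i ≤ j then Q ^ 1 else 1) := by
        rw [← Pool.T137.sumLe_one, ← Pool.T137.prod_sumLe]
      simp only [pow_one] at h3
      exact_mod_cast h3
    calc ({S ∈ hfin.toFinset | ρ S = b}.card : ℝ) * (Q : ℝ) ^ (n * (n + 1) / 2)
        ≤ B'.card * (Q : ℝ) ^ (n * (n + 1) / 2) :=
          mul_le_mul_of_nonneg_right h1' (by positivity)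
      _ = ∏ i, ∏ j, ((if i ≤ j then
          ({a ∈ B i j | a - S₀ i j ∈ I}.ncard : ℝ) else 1) *
            (if i ≤ j then (Q : ℝ) else 1)) := by
        rw [h2, hBc, ← Finset.prod_mul_distrib]
        refine Finset.prod_congr rfl fun i _ => ?_
        rw [← Finset.prod_mul_distrib]
      _ ≤ prLe M := by
        unfold prLe
        refine Finset.prod_le_prod (fun i _ => Finset.prod_nonneg fun j _ => ?_) fun i _ =>
          Finset.prod_le_prod (fun j _ => ?_) fun j _ => ?_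
        · split_ifs <;> positivity
        · split_ifs <;> positivity
        · by_cases h : i ≤ j
          · rw [if_pos h, if_pos h, if_pos h]
            exact hM i j h (S₀ i j)
          · rw [if_neg h, if_neg h, if_neg h, mul_one]
  have hcard : (𝒮.ncard : ℝ) = ∑ b ∈ A, ({S ∈ hfin.toFinset | ρ S = b}.card : ℝ) := by
    rw [Set.ncard_eq_toFinset_card _ hfin, Finset.card_eq_sum_card_fiberwise hρ, Nat.cast_sum]
  rw [hcard, Finset.sum_mul, ← hA]
  calc ∑ b ∈ A, ({S ∈ hfin.toFinset | ρ S = b}.card : ℝ) * (Q : ℝ) ^ (n * (n + 1) / 2)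
      ≤ ∑ _b ∈ A, prLe M := Finset.sum_le_sum hfib
    _ = (A.card : ℝ) * prLe M := by rw [Finset.sum_const, nsmul_eq_mul]

end Sym

section Res

variable {R : Type} [CommRing R]

/-- The possible residues of `S` for given residues of `G`. -/
def XP (g : ℕ) (P : Ideal R) (c : R) (γ : R[X])
    (G : Matrix (Fin (2 * g + 1)) (Fin (2 * g + 1)) R) :
    Set (Matrix (Fin (2 * g + 1)) (Fin (2 * g + 1)) (R ⧸ P)) :=
  {S | ∃ a : Matrix (Fin (2 * g + 1)) (Fin (2 * g + 1)) (R ⧸ P), a.det ≠ 0 ∧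
    G.map (Ideal.Quotient.mk P) = aᵀ * gr 0 (2 * g + 1)
      ((X - C (Ideal.Quotient.mk P c)) * md P γ) 1 * a ∧
    S = aᵀ * gr 1 (2 * g + 1)
      ((X - C (Ideal.Quotient.mk P c)) * md P γ) 1 * a}

theorem map_cong {n : ℕ} {P : Ideal R} {A B : Matrix (Fin n) (Fin n) R}
    (h : ∀ i j, (A - B) i j ∈ P) :
    A.map (Ideal.Quotient.mk P) = B.map (Ideal.Quotient.mk P) := by
  ext i j
  rw [Matrix.map_apply, Matrix.map_apply, Ideal.Quotient.mk_eq_mk_iff_sub_mem]
  exact h i j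

theorem mem_XP {g : ℕ} {P : Ideal R} (hP : P ≠ ⊤) {f : R[X]} (hf : f.Monic) {c : R} {γ : R[X]}
    (hr : Zer P (f - (X - C c) * γ)) {G S : Matrix (Fin (2 * g + 1)) (Fin (2 * g + 1)) R}
    (hst : StdP (2 * g + 1) P f G S) : S.map (Ideal.Quotient.mk P) ∈ XP g P c γ G := by
  obtain ⟨a, ha, hG, hS⟩ := hst
  have hnt : (1 : R ⧸ P) ≠ 0 := by
    have : Nontrivial (R ⧸ P) := Ideal.Quotient.nontrivial_iff.2 hP
    exact one_ne_zero
  have hfm : f.map (Ideal.Quotient.mk P) =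
      (X - C (Ideal.Quotient.mk P c)) * md P γ := by
    have h1 : (f - (X - C c) * γ).map (Ideal.Quotient.mk P) = 0 := by
      ext i
      rw [coeff_map, coeff_zero]
      exact Ideal.Quotient.eq_zero_iff_mem.2 (hr i)
    rw [Polynomial.map_sub, sub_eq_zero, Polynomial.map_mul, Polynomial.map_sub,
      Polynomial.map_X, Polynomial.map_C] at h1
    exact h1
  have hcomp : ∀ k, (aᵀ * gr k (2 * g + 1) f 1 * a).map (Ideal.Quotient.mk P) =
      (a.map (Ideal.Quotient.mk P))ᵀ * gr k (2 * g + 1)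
      ((X - C (Ideal.Quotient.mk P c)) * md P γ) 1 *
      a.map (Ideal.Quotient.mk P) := by
    intro k
    rw [Matrix.map_mul, Matrix.map_mul, Pool.HYP59.gr_map _ hf _ _ hnt, hfm,
      Matrix.transpose_map]
  refine ⟨a.map (Ideal.Quotient.mk P), ?_, ?_, ?_⟩
  · rw [← RingHom.mapMatrix_apply, ← RingHom.map_det]
    intro h0
    exact ha (Ideal.Quotient.eq_zero_iff_mem.1 h0)
  · rw [map_cong hG, hcomp]
  · rw [map_cong hS, hcomp]

variable [IsDedekindDomain R]

theorem card_XP {g : ℕ} (hg : 1 ≤ g) {P : HeightOneSpectrum R} (hF : Finite (R ⧸ P.asIdeal))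
    (h2 : (2 : R ⧸ P.asIdeal) ≠ 0) {c : R} {γ : R[X]} (hok : OkP (2 * g) P.asIdeal γ)
    (G : Matrix (Fin (2 * g + 1)) (Fin (2 * g + 1)) R) :
    2 * (Nm P - (2 * g + 1)) * (XP g P.asIdeal c γ G).ncard ≤
      Nm P * Nm P ^ ((2 * g + 1) * g) := by
  obtain ⟨hγm, hγd, hγi⟩ := hok
  have hmax : P.asIdeal.IsMaximal := P.isMaximal
  have hnt : Nontrivial (R ⧸ P.asIdeal) := Ideal.Quotient.nontrivial_iff.2 P.isPrime.ne_top
  let : Field (R ⧸ P.asIdeal) := Ideal.Quotient.field P.asIdeal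
  have hkey := Pool.HYP.ctx Pool.HYP.cx3 Pool.HYP.cx4 (R ⧸ P.asIdeal) h2 g
    (Ideal.Quotient.mk P.asIdeal c)
    (md P.asIdeal γ) hg (hγm.map _) (by rw [hγm.natDegree_map, hγd]) hγi
    (G.map (Ideal.Quotient.mk P.asIdeal))
  exact hkey

/-- The product of the local factors. -/
theorem prod_XP {g : ℕ} (hg : 1 ≤ g) (T : Finset (HeightOneSpectrum R))
    (hF : ∀ P : HeightOneSpectrum R, Finite (R ⧸ P.asIdeal))
    (h2 : ∀ P ∈ T, (2 : R ⧸ P.asIdeal) ≠ 0) (c : HeightOneSpectrum R → R)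
    (γ : HeightOneSpectrum R → R[X]) (hok : ∀ P ∈ T, OkP (2 * g) P.asIdeal (γ P))
    (hT : ∀ P ∈ T, 2 * (2 * g + 1) * T.card ≤ Nm P)
    (G : Matrix (Fin (2 * g + 1)) (Fin (2 * g + 1)) R) :
    2 ^ T.card * ∏ P ∈ T, (XP g P.asIdeal (c P) (γ P) G).ncard ≤
      2 * (∏ P ∈ T, Nm P) ^ ((2 * g + 1) * g) := by
  have h1 : ∏ P ∈ T, (2 * (Nm P - (2 * g + 1)) * (XP g P.asIdeal (c P) (γ P) G).ncard) ≤
      ∏ P ∈ T, (Nm P * Nm P ^ ((2 * g + 1) * g)) :=
    Finset.prod_le_prod' fun P hP => card_XP hg (hF P) (h2 P hP) (hok P hP) G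
  have h3 := Pool.HYP59.prod_sub T (2 * g + 1) (fun P => Nm P) hT (by omega)
  rw [Finset.prod_mul_distrib, Finset.prod_mul_distrib, Finset.prod_const,
    Finset.prod_mul_distrib, Finset.prod_pow] at h1
  have hq : 0 < ∏ P ∈ T, Nm P := Finset.prod_pos fun P _ => by
    have : Finite (R ⧸ P.asIdeal) := hF P
    have hnt : Nontrivial (R ⧸ P.asIdeal) := Ideal.Quotient.nontrivial_iff.2 P.isPrime.ne_top
    exact Nat.card_pos
  apply Nat.le_of_mul_le_mul_left _ hq
  calc (∏ P ∈ T, Nm P) * (2 ^ T.card * ∏ P ∈ T, (XP g P.asIdeal (c P) (γ P) G).ncard)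
      ≤ (2 * ∏ P ∈ T, (Nm P - (2 * g + 1))) *
        (2 ^ T.card * ∏ P ∈ T, (XP g P.asIdeal (c P) (γ P) G).ncard) :=
          Nat.mul_le_mul_right _ h3
    _ = 2 * (2 ^ T.card * (∏ P ∈ T, (Nm P - (2 * g + 1))) *
        ∏ P ∈ T, (XP g P.asIdeal (c P) (γ P) G).ncard) := by ring
    _ ≤ 2 * ((∏ P ∈ T, Nm P) * (∏ P ∈ T, Nm P) ^ ((2 * g + 1) * g)) :=
        Nat.mul_le_mul_left _ h1
    _ = (∏ P ∈ T, Nm P) * (2 * (∏ P ∈ T, Nm P) ^ ((2 * g + 1) * g)) := by
        ring

/-- The number of pairs with local conditions. -/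
theorem pair_cnt {g : ℕ} (hg : 1 ≤ g) (T : Finset (HeightOneSpectrum R))
    (hF : ∀ P : HeightOneSpectrum R, Finite (R ⧸ P.asIdeal))
    (h2 : ∀ P ∈ T, (2 : R ⧸ P.asIdeal) ≠ 0) (c : HeightOneSpectrum R → R)
    (γ : HeightOneSpectrum R → R[X]) (hok : ∀ P ∈ T, OkP (2 * g) P.asIdeal (γ P))
    (hT : ∀ P ∈ T, 2 * (2 * g + 1) * T.card ≤ Nm P)
    (A B : Fin (2 * g + 1) → Fin (2 * g + 1) → Set R) (hA : ∀ i j, (A i j).Finite)
    (hB : ∀ i j, (B i j).Finite) (MA MB : Fin (2 * g + 1) → Fin (2 * g + 1) → ℝ)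
    (hMA : ∀ i j, i ≤ j → ((A i j).ncard : ℝ) ≤ MA i j)
    (hMB : ∀ i j, i ≤ j → ∀ r : R, ({b ∈ B i j | b - r ∈ ∏ P ∈ T, P.asIdeal}.ncard : ℝ) *
      ((∏ P ∈ T, Nm P : ℕ) : ℝ) ≤ MB i j)
    (W : Set (Matrix (Fin (2 * g + 1)) (Fin (2 * g + 1)) R ×
      Matrix (Fin (2 * g + 1)) (Fin (2 * g + 1)) R))
    (hW : ∀ p ∈ W, p.1ᵀ = p.1 ∧ p.2ᵀ = p.2 ∧ (∀ i j, p.1 i j ∈ A i j) ∧
      (∀ i j, p.2 i j ∈ B i j) ∧ ∀ P ∈ T,
        p.2.map (Ideal.Quotient.mk P.asIdeal) ∈ XP g P.asIdeal (c P) (γ P) p.1) :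
    W.Finite ∧ 2 ^ T.card * (W.ncard : ℝ) * ((∏ P ∈ T, Nm P : ℕ) : ℝ) ^ (2 * g + 1) ≤
      2 * (prLe MA * prLe MB) := by
  classical
  set M : ℕ := ∏ P ∈ T, Nm P with hM
  obtain ⟨hGf, hGc⟩ := sym_cnt A hA MA hMA
  have hSf : {S : Matrix (Fin (2 * g + 1)) (Fin (2 * g + 1)) R | Sᵀ = S ∧
      ∀ i j, S i j ∈ B i j}.Finite :=
    (sym_cnt B hB (fun i j => ((B i j).ncard : ℝ)) fun i j _ => le_rfl).1
  have hMpos : 0 < M := Finset.prod_pos fun P _ => by
    have : Finite (R ⧸ P.asIdeal) := hF P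
    have hnt : Nontrivial (R ⧸ P.asIdeal) := Ideal.Quotient.nontrivial_iff.2 P.isPrime.ne_top
    exact Nat.card_pos
  have hMposR : (0 : ℝ) < M := by exact_mod_cast hMpos
  have hMB0 : 0 ≤ prLe MB := by
    unfold prLe
    refine Finset.prod_nonneg fun i _ => Finset.prod_nonneg fun j _ => ?_
    by_cases h : i ≤ j
    · rw [if_pos h]
      exact le_trans (by positivity) (hMB i j h 0)
    · rw [if_neg h]
      exact zero_le_one
  -- the number of matrices `S`
  have hS : ∀ G : Matrix (Fin (2 * g + 1)) (Fin (2 * g + 1)) R,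
      2 ^ T.card * ({S : Matrix (Fin (2 * g + 1)) (Fin (2 * g + 1)) R | Sᵀ = S ∧
        (∀ i j, S i j ∈ B i j) ∧
        ∀ P ∈ T, S.map (Ideal.Quotient.mk P.asIdeal) ∈
          XP g P.asIdeal (c P) (γ P) G}.ncard : ℝ) *
        (M : ℝ) ^ (2 * g + 1) ≤ 2 * prLe MB := by
    intro G
    have h1 := sym_res hF T (fun P => XP g P.asIdeal (c P) (γ P) G) B hB MB hMB
    have hexp : (2 * g + 1) * (2 * g + 1 + 1) / 2 = (2 * g + 1) * g + (2 * g + 1) := by
      have : (2 * g + 1) * (2 * g + 1 + 1) = 2 * ((2 * g + 1) * g + (2 * g + 1)) := by ring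
      rw [this, Nat.mul_div_cancel_left _ (by norm_num)]
    rw [hexp, ← hM] at h1
    set W' := {S : Matrix (Fin (2 * g + 1)) (Fin (2 * g + 1)) R | Sᵀ = S ∧
        (∀ i j, S i j ∈ B i j) ∧
        ∀ P ∈ T, S.map (Ideal.Quotient.mk P.asIdeal) ∈
          XP g P.asIdeal (c P) (γ P) G}.ncard with hW'
    have hpX := prod_XP hg T hF h2 c γ hok hT G
    have hpX' : (2 : ℝ) ^ T.card * ((∏ P ∈ T, (XP g P.asIdeal (c P) (γ P) G).ncard : ℕ) : ℝ) ≤
        2 * (M : ℝ) ^ ((2 * g + 1) * g) := by exact_mod_cast hpX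
    have hpos : (0 : ℝ) < (M : ℝ) ^ ((2 * g + 1) * g) := pow_pos hMposR _
    refine le_of_mul_le_mul_left ?_ hpos
    calc (M : ℝ) ^ ((2 * g + 1) * g) * (2 ^ T.card * (W' : ℝ) * (M : ℝ) ^ (2 * g + 1))
        = 2 ^ T.card * ((W' : ℝ) * (M : ℝ) ^ ((2 * g + 1) * g + (2 * g + 1))) := by
          rw [pow_add]; ring
      _ ≤ 2 ^ T.card * (((∏ P ∈ T, (XP g P.asIdeal (c P) (γ P) G).ncard : ℕ) : ℝ) *
          prLe MB) := mul_le_mul_of_nonneg_left h1 (by positivity)
      _ = (2 ^ T.card * ((∏ P ∈ T, (XP g P.asIdeal (c P) (γ P) G).ncard : ℕ) : ℝ)) *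
          prLe MB := by ring
      _ ≤ (2 * (M : ℝ) ^ ((2 * g + 1) * g)) * prLe MB :=
          mul_le_mul_of_nonneg_right hpX' hMB0
      _ = (M : ℝ) ^ ((2 * g + 1) * g) * (2 * prLe MB) := by ring
  -- finiteness
  have hsub : W ⊆ {G : Matrix (Fin (2 * g + 1)) (Fin (2 * g + 1)) R | Gᵀ = G ∧
      ∀ i j, G i j ∈ A i j} ×ˢ
      {G : Matrix (Fin (2 * g + 1)) (Fin (2 * g + 1)) R | Gᵀ = G ∧
      ∀ i j, G i j ∈ B i j} := by
    rintro p hp
    obtain ⟨k1, k2, k3, k4, -⟩ := hW p hp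
    exact ⟨⟨k1, k3⟩, ⟨k2, k4⟩⟩
  have hPf : W.Finite := (hGf.prod hSf).subset hsub
  refine ⟨hPf, ?_⟩
  have hmap : ∀ p ∈ hPf.toFinset, Prod.fst p ∈ hGf.toFinset := by
    intro p hp
    rw [Set.Finite.mem_toFinset] at hp ⊢
    exact (hsub hp).1
  have hcard : (W.ncard : ℝ) = ∑ G ∈ hGf.toFinset,
      ({p ∈ hPf.toFinset | p.1 = G}.card : ℝ) := by
    rw [Set.ncard_eq_toFinset_card _ hPf, Finset.card_eq_sum_card_fiberwise hmap, Nat.cast_sum]
  rw [hcard, Finset.mul_sum, Finset.sum_mul]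
  calc ∑ G ∈ hGf.toFinset, 2 ^ T.card * ({p ∈ hPf.toFinset | p.1 = G}.card : ℝ) *
        (M : ℝ) ^ (2 * g + 1) ≤ ∑ _G ∈ hGf.toFinset, 2 * prLe MB := by
        refine Finset.sum_le_sum fun G _ => le_trans ?_ (hS G)
        refine mul_le_mul_of_nonneg_right (mul_le_mul_of_nonneg_left ?_ (by positivity))
          (by positivity)
        have hfin : {S : Matrix (Fin (2 * g + 1)) (Fin (2 * g + 1)) R | Sᵀ = S ∧
            (∀ i j, S i j ∈ B i j) ∧
            ∀ P ∈ T, S.map (Ideal.Quotient.mk P.asIdeal) ∈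
              XP g P.asIdeal (c P) (γ P) G}.Finite :=
          hSf.subset fun S hS => ⟨hS.1, hS.2.1⟩
        rw [Set.ncard_eq_toFinset_card _ hfin]
        have h5 : {p ∈ hPf.toFinset | p.1 = G}.card ≤ hfin.toFinset.card := by
          apply Finset.card_le_card_of_injOn Prod.snd
          · rintro ⟨G', S⟩ hp
            rw [Finset.mem_coe, Finset.mem_filter, Set.Finite.mem_toFinset] at hp
            obtain ⟨hp1, rfl⟩ := hp
            obtain ⟨k1, k2, k3, k4, k5⟩ := hW _ hp1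
            rw [Finset.mem_coe, Set.Finite.mem_toFinset]
            exact ⟨k2, k4, k5⟩
          · rintro ⟨G', S⟩ hp ⟨G'', S'⟩ hp' hSS
            rw [Finset.mem_coe, Finset.mem_filter] at hp hp'
            exact Prod.ext (hp.2.trans hp'.2.symm) hSS
        exact_mod_cast h5
    _ = (hGf.toFinset.card : ℝ) * (2 * prLe MB) := by
        rw [Finset.sum_const, nsmul_eq_mul]
    _ ≤ prLe MA * (2 * prLe MB) := by
        refine mul_le_mul_of_nonneg_right ?_ (by positivity)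
        rw [← Set.ncard_eq_toFinset_card _ hGf]
        exact hGc
    _ = 2 * (prLe MA * prLe MB) := by ring

end Res

section Orb

variable {R : Type} [CommRing R]

/-- The upper triangular matrices with diagonal entries `1` and given other entries. -/
def UniS {n : ℕ} (A : Fin n → Fin n → Set R) : Set (Matrix (Fin n) (Fin n) R) :=
  {u | (∀ i, u i i = 1) ∧ (∀ i j, j < i → u i j = 0) ∧ ∀ i j, i < j → u i j ∈ A i j}

theorem uni_cnt {n : ℕ} (A : Fin n → Fin n → Set R) (hA : ∀ i j, (A i j).Finite) :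
    (UniS A).Finite ∧ ((UniS A).ncard : ℝ) = prLt fun i j => ((A i j).ncard : ℝ) := by
  classical
  let B : Finset (Fin n → Fin n → R) := Fintype.piFinset fun i => Fintype.piFinset fun j =>
    if i < j then (hA i j).toFinset else {0}
  have hBc : (B.card : ℝ) = prLt fun i j => ((A i j).ncard : ℝ) := by
    unfold prLt
    rw [Fintype.card_piFinset, Nat.cast_prod]
    refine Finset.prod_congr rfl fun i _ => ?_
    rw [Fintype.card_piFinset, Nat.cast_prod]
    refine Finset.prod_congr rfl fun j _ => ?_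
    by_cases h : i < j
    · rw [if_pos h, if_pos h]
      show (((hA i j).toFinset.card : ℕ) : ℝ) = ((A i j).ncard : ℝ)
      rw [Set.ncard_eq_toFinset_card _ (hA i j)]
    · rw [if_neg h, if_neg h, Finset.card_singleton, Nat.cast_one]
  let φ : (Fin n → Fin n → R) → Matrix (Fin n) (Fin n) R := fun t =>
    Matrix.of fun i j => if i = j then 1 else t i j
  have hB : ∀ t, t ∈ B ↔ ∀ i j, (i < j → t i j ∈ A i j) ∧ (¬ i < j → t i j = 0) := by
    intro t
    rw [Fintype.mem_piFinset]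
    refine forall_congr' fun i => ?_
    rw [Fintype.mem_piFinset]
    refine forall_congr' fun j => ?_
    by_cases h : i < j
    · rw [if_pos h, Set.Finite.mem_toFinset]
      exact ⟨fun h1 => ⟨fun _ => h1, fun h2 => absurd h h2⟩, fun h1 => h1.1 h⟩
    · rw [if_neg h, Finset.mem_singleton]
      exact ⟨fun h1 => ⟨fun h2 => absurd h2 h, fun _ => h1⟩, fun h1 => h1.2 h⟩
  have himg : UniS A = φ '' (B : Set (Fin n → Fin n → R)) := by
    ext u
    constructor
    · rintro ⟨h1, h2, h3⟩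
      refine ⟨fun i j => if i < j then u i j else 0, ?_, ?_⟩
      · rw [Finset.mem_coe, hB]
        intro i j
        refine ⟨fun h => ?_, fun h => if_neg h⟩
        simp only [if_pos h]
        exact h3 i j h
      · ext i j
        show (if i = j then (1 : R) else if i < j then u i j else 0) = u i j
        rcases lt_trichotomy i j with h | h | h
        · rw [if_neg (ne_of_lt h), if_pos h]
        · subst h
          rw [if_pos rfl, h1]
        · rw [if_neg (ne_of_gt h), if_neg (not_lt_of_gt h), h2 i j h]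
    · rintro ⟨t, ht, rfl⟩
      rw [Finset.mem_coe, hB] at ht
      refine ⟨fun i => if_pos rfl, fun i j h => ?_, fun i j h => ?_⟩
      · show (if i = j then (1 : R) else t i j) = 0
        rw [if_neg (ne_of_gt h)]
        exact (ht i j).2 (not_lt_of_gt h)
      · show (if i = j then (1 : R) else t i j) ∈ A i j
        rw [if_neg (ne_of_lt h)]
        exact (ht i j).1 h
  have hinj : Set.InjOn φ (B : Set (Fin n → Fin n → R)) := by
    intro t ht t' ht' htt
    rw [Finset.mem_coe, hB] at ht ht'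
    funext i j
    by_cases hij : i < j
    · have h : (if i = j then (1 : R) else t i j) = if i = j then (1 : R) else t' i j :=
        congrFun (congrFun htt i) j
      rwa [if_neg (ne_of_lt hij), if_neg (ne_of_lt hij)] at h
    · rw [(ht i j).2 hij, (ht' i j).2 hij]
  constructor
  · rw [himg]
    exact B.finite_toSet.image φ
  · rw [himg, hinj.ncard_image, Set.ncard_coe_finset, hBc]

/-- Orbits: `(f, u) ↦ (uᵀ G u, uᵀ S u)` is injective. -/
theorem orbit_cnt [IsDomain R] (K : Type) [Field K] [Algebra R K] [IsFractionRing R K]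
    (h2 : (2 : R) ≠ 0) {n : ℕ} (hn : 1 ≤ n) (PF : Set R[X]) (U : Set (Matrix (Fin n) (Fin n) R))
    (W : Set (Matrix (Fin n) (Fin n) R × Matrix (Fin n) (Fin n) R)) (hW : W.Finite)
    (hU : ∀ u ∈ U, (∀ i, u i i = 1) ∧ ∀ i j, j < i → u i j = 0)
    (hPF : ∀ f ∈ PF, Irreducible (fk K f) ∧ ∃ G S : Matrix (Fin n) (Fin n) R, Gᵀ = G ∧ Sᵀ = S ∧
      G.det ≠ 0 ∧ (pen G S).det = C G.det * f ∧ ∀ u ∈ U, (uᵀ * G * u, uᵀ * S * u) ∈ W) :
    PF.ncard * U.ncard ≤ W.ncard := by
  classical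
  rcases PF.finite_or_infinite with hPf | hPf
  swap
  · rw [hPf.ncard, zero_mul]; exact Nat.zero_le _
  rcases U.finite_or_infinite with hUU | hUU
  swap
  · rw [hUU.ncard, mul_zero]; exact Nat.zero_le _
  rw [← Set.ncard_prod]
  have hdet : ∀ u ∈ U, u.det = 1 := fun u hu => by
    rw [Matrix.det_of_isUpperTriangular (fun i j hij => (hU u hu).2 i j hij)]
    exact Finset.prod_eq_one fun i _ => (hU u hu).1 i
  choose! G S hGS using fun (f : R[X]) (hf : f ∈ PF) => (hPF f hf).2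
  refine Set.ncard_le_ncard_of_injOn
    (fun x : R[X] × Matrix (Fin n) (Fin n) R =>
      (x.2ᵀ * G x.1 * x.2, x.2ᵀ * S x.1 * x.2)) ?_ ?_ hW
  · intro x hx
    exact (hGS x.1 hx.1).2.2.2.2 x.2 hx.2
  · have hpen : ∀ f ∈ PF, ∀ u ∈ U, (pen (uᵀ * G f * u) (uᵀ * S f * u)).det =
        C (uᵀ * G f * u).det * f := fun f hf u hu => by
      rw [CT1K77.pen_conj, CT1K77.det_conj, CT1K77.det_conj, (hGS f hf).2.2.2.1]
      have : (u.map C).det = C u.det := by
        rw [← RingHom.mapMatrix_apply, ← RingHom.map_det]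
      rw [this, C_mul, C_pow]
      ring
    have hdt : ∀ f ∈ PF, ∀ u ∈ U, (uᵀ * G f * u).det ≠ 0 := fun f hf u hu => by
      rw [CT1K77.det_conj, hdet u hu, one_pow, one_mul]
      exact (hGS f hf).2.2.1
    intro y hy x hx hΦ
    have e1 : y.2ᵀ * G y.1 * y.2 = x.2ᵀ * G x.1 * x.2 := congrArg Prod.fst hΦ
    have e2 : y.2ᵀ * S y.1 * y.2 = x.2ᵀ * S x.1 * x.2 := congrArg Prod.snd hΦ
    have hf : y.1 = x.1 := by
      have h1 := hpen x.1 hx.1 x.2 hx.2
      have h2 := hpen y.1 hy.1 y.2 hy.2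
      rw [e1, e2, h1] at h2
      have h3 : (C (x.2ᵀ * G x.1 * x.2).det : R[X]) ≠ 0 := C_ne_zero.2 (hdt x.1 hx.1 x.2 hx.2)
      exact (mul_left_cancel₀ h3 h2).symm
    rw [hf] at e1 e2
    obtain ⟨k1, k2, k5, k6, -⟩ := hGS x.1 hx.1
    have hdu : IsUnit x.2.det := by rw [hdet x.2 hx.2]; exact isUnit_one
    rcases CT1K77.two (IsFractionRing.injective R K) k1 k2 k5 k6 (hPF x.1 hx.1).1 hdu e1 e2 with
      h4 | h4
    · exact Prod.ext hf h4
    · exfalso
      obtain ⟨i⟩ : Nonempty (Fin n) := ⟨⟨0, hn⟩⟩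
      have h5 : y.2 i i = -x.2 i i := by rw [h4, Matrix.neg_apply]
      rw [(hU y.2 hy.2).1 i, (hU x.2 hx.2).1 i] at h5
      apply h2
      have : (1 : R) + 1 = 0 := by
        nth_rewrite 1 [h5]
        exact neg_add_cancel 1
      rwa [one_add_one_eq_two] at this

end Orb

end Pool.NF.Cnt
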