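import Pool.Agent.H41.NF.Cnt

/-!
# NF, row NCNT: the final bound of the count
-/

set_option autoImplicit false

namespace Pool.NF

open Polynomial Matrix Pool.HYP Pool.T1 IsDedekindDomain NumberField

namespace NCNT50

theorem adn_mono {C C' : ℝ} (h : C ≤ C') {d : Fin 3 → ℝ} (hd : Adn C d) : Adn C' d :=
  ⟨hd.1, hd.2.1.trans h, by linarith [hd.2.2.1], by linarith [hd.2.2.2]⟩

theorem ppn_mono {K : Type} [Field K] [NumberField K] {C C' x : ℝ} (h : C ≤ C') (hx : 0 ≤ x)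
    (D : TDat K) (d : Fin 3 → ℝ) : PPn C x D d ⊆ PPn C' x D d := by
  rintro p ⟨h1, h3, h4, h5, h6⟩
  refine ⟨h1, h3, fun i j σ => (h4 i j σ).trans ?_, fun i j σ => (h5 i j σ).trans ?_, h6⟩
  · exact mul_le_mul_of_nonneg_right h (Real.exp_pos _).le
  · exact mul_le_mul_of_nonneg_right (mul_le_mul_of_nonneg_right h hx) (Real.exp_pos _).le

/-- Division by `exp (-4 n e)`. -/
theorem div_exp {a X c3 s t e : ℝ} (hc : 0 < c3) (h : a * (c3 * Real.exp (-(4 * t) * e)) ≤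
    s * X * Real.exp (-(3 * t) * e)) : a ≤ s / c3 * X * Real.exp (t * e) := by
  have h1 : Real.exp (-(3 * t) * e) = Real.exp (-(4 * t) * e) * Real.exp (t * e) := by
    rw [← Real.exp_add]
    congr 1
    ring
  have h2 : 0 < c3 * Real.exp (-(4 * t) * e) := mul_pos hc (Real.exp_pos _)
  refine le_of_mul_le_mul_right (h.trans (le_of_eq ?_)) h2
  rw [h1]
  field_simp

end NCNT50

open NCNT50 in
/-- NCNT. -/
theorem ncnt (hNPM : NPMStmt) (hNPT : NPTStmt) (hNUU : NUUStmt) (hNCO : NCOStmt)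
    (hNAD : NADStmt) (hNRO : NROStmt) (hNSU : NSUStmt) (hNFI : NFIStmt) : NCNTStmt := by
  classical
  intro K _ _ C hC
  obtain ⟨C', hC'⟩ : ∃ C', C' = 9 * C + 3 := ⟨_, rfl⟩
  have hC1 : 1 ≤ C' := by linarith
  have hCC : C ≤ C' := by linarith
  have hC3 : C + 3 ≤ C' := by linarith
  have hC9 : 9 * C ≤ C' := by linarith
  obtain ⟨n, hn⟩ : ∃ n, n = dg K := ⟨_, rfl⟩
  have hn1 : 1 ≤ n := by
    rw [hn]
    exact Module.finrank_pos
  have hnR : (1 : ℝ) ≤ (n : ℝ) := by exact_mod_cast hn1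
  obtain ⟨c2, hc2, hM⟩ := hNPM K C' hC1
  obtain ⟨c1, hc1, hT⟩ := hNPT K C' hC1
  obtain ⟨c3, hc3, hU⟩ := hNUU K C' hC1
  obtain ⟨c4, hc4, hS⟩ := hNSU C' n hC1 hn1
  rw [← hn] at hM hT hU ⊢
  refine ⟨c2 / c3 * c4 * Real.exp (n * (C' / 3)) + 1, by positivity, fun D hD => ?_⟩
  have hN0 : 0 < D.N := Finset.prod_pos fun P hP => by
    have h1 := (hD P hP).2.2
    have h2 : 0 < D.T.card := Finset.card_pos.2 ⟨P, hP⟩
    omega
  obtain ⟨N, hN⟩ : ∃ N : ℝ, N = (D.N : ℝ) := ⟨_, rfl⟩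
  have hNpos : 0 < N := by
    rw [hN]
    exact_mod_cast hN0
  obtain ⟨k, hk⟩ : ∃ k, k = D.T.card := ⟨_, rfl⟩
  obtain ⟨B, hB⟩ : ∃ B, B = 2 ^ k * N ^ 3 * (c1 / c3) * c4 := ⟨_, rfl⟩
  have hB0 : 0 < B := by
    rw [hB]
    positivity
  refine ⟨Real.exp |2 * Real.log B + Real.log N|, fun x hx F hF => ?_⟩
  have hx1 : 1 ≤ x := le_trans (by
    rw [← Real.exp_zero]
    exact Real.exp_le_exp.2 (abs_nonneg _)) hx
  have hx0 : 0 < x := by linarith
  have hlx : |2 * Real.log B + Real.log N| ≤ Real.log x := by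
    rw [Real.le_log_iff_exp_le hx0]
    exact hx
  have hlx0 : 0 ≤ Real.log x := Real.log_nonneg hx1
  obtain ⟨y0, hy0⟩ : ∃ y0, y0 = -(Real.log (C' * x)) / 2 := ⟨_, rfl⟩
  have hCx : 0 < C' * x := by positivity
  have hbox : ∀ t : ℝ, y0 ≤ t → 1 ≤ C' * x * Real.exp (2 * t) := fun t ht => by
    have h1 : C' * x = Real.exp (Real.log (C' * x)) := (Real.exp_log hCx).symm
    rw [h1, ← Real.exp_add, ← Real.exp_zero]
    apply Real.exp_le_exp.2
    rw [hy0] at ht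
    linarith
  have hbox' : ∀ t : ℝ, 1 ≤ C * x * Real.exp (2 * t) → y0 ≤ t := fun t ht => by
    have h1 : 1 ≤ C' * x * Real.exp (2 * t) := ht.trans
      (mul_le_mul_of_nonneg_right (mul_le_mul_of_nonneg_right hCC hx0.le) (Real.exp_pos _).le)
    have h2 : C' * x = Real.exp (Real.log (C' * x)) := (Real.exp_log hCx).symm
    rw [h2, ← Real.exp_add, ← Real.exp_zero] at h1
    have h3 := Real.exp_le_exp.1 h1
    rw [hy0]
    linarith
  obtain ⟨E, hE⟩ : ∃ E : Finset (Fin 3 → ℤ), ∀ e, e ∈ E ↔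
      Adn C' (fun i => (e i : ℝ)) ∧ y0 ≤ (e 0 : ℝ) :=
    ⟨(hNFI C' y0).toFinset, fun e => by rw [Set.Finite.mem_toFinset]; rfl⟩
  have hfinE : ∀ e ∈ E, (PPn (9 * C) x D (fun i => (e i : ℝ))).Finite ∧
      ((PPn (9 * C) x D (fun i => (e i : ℝ))).ncard : ℝ) ≤
        ((PPn C' x D (fun i => (e i : ℝ))).ncard : ℝ) ∧
      ((PPn C' x D (fun i => (e i : ℝ))).ncard : ℝ) ≤
        c1 * x ^ (6 * n) * Real.exp (-(3 * n) * (e 0 : ℝ)) := fun e he => by
    obtain ⟨h1, h3⟩ := (hE e).1 he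
    obtain ⟨h4, h5⟩ := hT D (fun i => (e i : ℝ)) x h1 hx1 (hbox _ h3)
    have h6 := ppn_mono hC9 hx0.le D (fun i => (e i : ℝ))
    exact ⟨h4.subset h6, by exact_mod_cast Set.ncard_le_ncard h6 h4, h5⟩
  have hPFfin : ∀ e ∈ E, (PFn C x D F (fun i => (e i : ℝ))).Finite := fun e he =>
    (hNCO K C x D _ F (by linarith) hx0.le ((hE e).1 he).1.1 hF (hfinE e he).1).1
  have hPU : ∀ e ∈ E, ((PFn C x D F (fun i => (e i : ℝ))).ncard : ℝ) *
      (c3 * Real.exp (-(4 * n) * (e 0 : ℝ))) ≤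
      ((PPn C' x D (fun i => (e i : ℝ))).ncard : ℝ) := fun e he => by
    have h1 := (hNCO K C x D _ F (by linarith) hx0.le ((hE e).1 he).1.1 hF (hfinE e he).1).2
    have h3 : ((PFn C x D F (fun i => (e i : ℝ))).ncard : ℝ) *
        ((UUn K (fun i => (e i : ℝ))).ncard : ℝ) ≤
        ((PPn (9 * C) x D (fun i => (e i : ℝ))).ncard : ℝ) := by exact_mod_cast h1
    have h4 := (hU _ ((hE e).1 he).1).2
    exact (mul_le_mul_of_nonneg_left h4 (by positivity)).trans (h3.trans (hfinE e he).2.1)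
  -- the two bounds
  have hmain : ∀ e ∈ E, N ≤ (C' * x * Real.exp (2 * (e 0 : ℝ))) ^ n →
      2 ^ k * ((PFn C x D F (fun i => (e i : ℝ))).ncard : ℝ) * N ^ 3 ≤
        c2 / c3 * x ^ (6 * n) * Real.exp (n * (e 0 : ℝ)) := fun e he hlarge => by
    have h1 := hM D (fun i => (e i : ℝ)) x hD ((hE e).1 he).1 hx1 (by rw [← hN]; exact hlarge)
    rw [← hk, ← hN] at h1
    refine div_exp hc3 ?_
    refine le_trans ?_ h1
    have h3 := mul_le_mul_of_nonneg_left (hPU e he) (show (0 : ℝ) ≤ 2 ^ k * N ^ 3 by positivity)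
    linarith
  have hother : ∀ e ∈ E, 2 ^ k * ((PFn C x D F (fun i => (e i : ℝ))).ncard : ℝ) * N ^ 3 ≤
        2 ^ k * N ^ 3 * (c1 / c3) * (x ^ (6 * n)) * Real.exp (n * (e 0 : ℝ)) := fun e he => by
    have h1 : ((PFn C x D F (fun i => (e i : ℝ))).ncard : ℝ) ≤
        c1 / c3 * x ^ (6 * n) * Real.exp (n * (e 0 : ℝ)) :=
      div_exp hc3 ((hPU e he).trans (hfinE e he).2.2)
    have h3 := mul_le_mul_of_nonneg_left h1 (show (0 : ℝ) ≤ 2 ^ k * N ^ 3 by positivity)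
    linarith
  -- the set of the bad polynomials
  have hsub : BFn C x D F ⊆ ⋃ e ∈ E, PFn C x D F (fun i => (e i : ℝ)) := by
    rintro f ⟨hf, d, p, hd, hds, hp⟩
    obtain ⟨e, he1, he2, he3⟩ := hNRO K C x D d f p hC hx1 hd hds hp
    have he4 := he3 C le_rfl
    have hmon : Monotone fun i => (e i : ℝ) := fun i j hij => by
      show (e i : ℝ) ≤ e j
      exact_mod_cast he1 hij
    obtain ⟨h5, h6, h7⟩ := hNAD K C x D (fun i => (e i : ℝ)) f p hC hx1 hmon he4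
    refine Set.mem_iUnion₂.2 ⟨e, (hE e).2 ⟨?_, hbox' _ h7⟩, hf, p, he4⟩
    exact adn_mono hC3 ⟨hmon, he2, by linarith, by linarith⟩
  have hUfin : (⋃ e ∈ E, PFn C x D F (fun i => (e i : ℝ))).Finite :=
    E.finite_toSet.biUnion fun e he => hPFfin e (Finset.mem_coe.1 he)
  refine ⟨hUfin.subset hsub, ?_⟩
  have hcard : ((BFn C x D F).ncard : ℝ) ≤
      ∑ e ∈ E, ((PFn C x D F (fun i => (e i : ℝ))).ncard : ℝ) := by
    have h3 := (Set.ncard_le_ncard hsub hUfin).trans (Finset.set_ncard_biUnion_le E _)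
    exact_mod_cast h3
  rw [← hk, ← hN]
  have hstep : 2 ^ k * ((BFn C x D F).ncard : ℝ) * N ^ 3 ≤
      ∑ e ∈ E, 2 ^ k * ((PFn C x D F (fun i => (e i : ℝ))).ncard : ℝ) * N ^ 3 := by
    rw [← Finset.sum_mul, ← Finset.mul_sum]
    exact mul_le_mul_of_nonneg_right (mul_le_mul_of_nonneg_left hcard (by positivity))
      (by positivity)
  refine hstep.trans ?_
  rw [← Finset.sum_filter_add_sum_filter_not E
    (fun e => N ≤ (C' * x * Real.exp (2 * (e 0 : ℝ))) ^ n), add_mul]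
  apply add_le_add
  · calc ∑ e ∈ E.filter (fun e => N ≤ (C' * x * Real.exp (2 * (e 0 : ℝ))) ^ n),
          2 ^ k * ((PFn C x D F (fun i => (e i : ℝ))).ncard : ℝ) * N ^ 3
        ≤ ∑ e ∈ E.filter (fun e => N ≤ (C' * x * Real.exp (2 * (e 0 : ℝ))) ^ n),
          c2 / c3 * x ^ (6 * n) * Real.exp (n * (e 0 : ℝ)) :=
          Finset.sum_le_sum fun e he => hmain e (Finset.mem_filter.1 he).1
            (Finset.mem_filter.1 he).2
      _ = c2 / c3 * x ^ (6 * n) *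
          ∑ e ∈ E.filter (fun e => N ≤ (C' * x * Real.exp (2 * (e 0 : ℝ))) ^ n),
            Real.exp (n * (e 0 : ℝ)) := by rw [Finset.mul_sum]
      _ ≤ c2 / c3 * x ^ (6 * n) * (c4 * Real.exp (n * (C' / 3))) := by
          refine mul_le_mul_of_nonneg_left (hS _ (C' / 3) fun e he => ?_) (by positivity)
          have h1 := ((hE e).1 (Finset.mem_filter.1 he).1).1
          refine ⟨h1, ?_⟩
          have h3 : (e 0 : ℝ) ≤ e 1 := h1.1 (by decide : (0 : Fin 3) ≤ 1)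
          have h4 : (e 0 : ℝ) ≤ e 2 := h1.1 (by decide : (0 : Fin 3) ≤ 2)
          have h5 : (e 0 : ℝ) + e 1 + e 2 ≤ C' := h1.2.1
          linarith
      _ = c2 / c3 * c4 * Real.exp (n * (C' / 3)) * x ^ (6 * n) := by ring
  · obtain ⟨y, hy⟩ : ∃ y, y = (Real.log N - n * Real.log x) / (2 * n) := ⟨_, rfl⟩
    have hny : n * y = (Real.log N - n * Real.log x) / 2 := by
      rw [hy]
      have : (n : ℝ) ≠ 0 := by positivity
      field_simp
    have hsmall : ∀ e ∈ E.filter (fun e => ¬ N ≤ (C' * x * Real.exp (2 * (e 0 : ℝ))) ^ n),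
        Adn C' (fun i => (e i : ℝ)) ∧ (e 0 : ℝ) ≤ y := fun e he => by
      obtain ⟨h1, h2⟩ := Finset.mem_filter.1 he
      refine ⟨((hE e).1 h1).1, ?_⟩
      have h3 : (C' * x * Real.exp (2 * (e 0 : ℝ))) ^ n < N := not_le.1 h2
      have hpos : 0 < C' * x * Real.exp (2 * (e 0 : ℝ)) := mul_pos hCx (Real.exp_pos _)
      have h4 := Real.log_lt_log (pow_pos hpos n) h3
      rw [Real.log_pow, Real.log_mul hCx.ne' (Real.exp_pos _).ne', Real.log_exp,
        Real.log_mul (by positivity) hx0.ne'] at h4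
      have h5 : 0 ≤ Real.log C' := Real.log_nonneg hC1
      have h6 : (n : ℝ) * (Real.log x + 2 * (e 0 : ℝ)) ≤
          n * (Real.log C' + Real.log x + 2 * (e 0 : ℝ)) :=
        mul_le_mul_of_nonneg_left (by linarith) (by linarith)
      rw [hy, le_div_iff₀ (by linarith)]
      linarith
    calc ∑ e ∈ E.filter (fun e => ¬ N ≤ (C' * x * Real.exp (2 * (e 0 : ℝ))) ^ n),
          2 ^ k * ((PFn C x D F (fun i => (e i : ℝ))).ncard : ℝ) * N ^ 3
        ≤ ∑ e ∈ E.filter (fun e => ¬ N ≤ (C' * x * Real.exp (2 * (e 0 : ℝ))) ^ n),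
          2 ^ k * N ^ 3 * (c1 / c3) * (x ^ (6 * n)) * Real.exp (n * (e 0 : ℝ)) :=
          Finset.sum_le_sum fun e he => hother e (Finset.mem_filter.1 he).1
      _ = 2 ^ k * N ^ 3 * (c1 / c3) * (x ^ (6 * n)) *
          ∑ e ∈ E.filter (fun e => ¬ N ≤ (C' * x * Real.exp (2 * (e 0 : ℝ))) ^ n),
            Real.exp (n * (e 0 : ℝ)) := by rw [Finset.mul_sum]
      _ ≤ 2 ^ k * N ^ 3 * (c1 / c3) * (x ^ (6 * n)) * (c4 * Real.exp (n * y)) :=
          mul_le_mul_of_nonneg_left (hS _ y hsmall) (by positivity)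
      _ = (B * Real.exp (n * y)) * x ^ (6 * n) := by
          rw [hB]
          ring
      _ ≤ 1 * x ^ (6 * n) := by
          refine mul_le_mul_of_nonneg_right ?_ (by positivity)
          have h1 : B = Real.exp (Real.log B) := (Real.exp_log hB0).symm
          rw [h1, ← Real.exp_add, ← Real.exp_zero]
          apply Real.exp_le_exp.2
          rw [hny]
          have h3 : 2 * Real.log B + Real.log N ≤ Real.log x := (le_abs_self _).trans hlx
          have h4 : Real.log x ≤ n * Real.log x := by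
            have := mul_le_mul_of_nonneg_right hnR hlx0
            linarith
          linarith

end Pool.NF
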