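import Pool.Agent.H41.NF.Cnt
import Pool.Agent.H50.NF.Cnt

/-!
# NF, row NCO: orbits of pairs of matrices
-/

set_option autoImplicit false
set_option linter.unusedSectionVars false

namespace Pool.NF

open Polynomial Matrix Pool.HYP Pool.T1 IsDedekindDomain NumberField

namespace NCO50

section Box

variable {K : Type} [Field K] [NumberField K]

theorem bx_mul {a b : 𝓞 K} {ρ τ : ℝ} (hρ : 0 ≤ ρ) (ha : a ∈ Bx K ρ) (hb : b ∈ Bx K τ) :
    a * b ∈ Bx K (ρ * τ) := fun σ => by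
  have h1 : σ ((a * b : 𝓞 K) : K) = σ (a : K) * σ (b : K) := by
    rw [← map_mul]
    rfl
  rw [h1, norm_mul]
  exact mul_le_mul (ha σ) (hb σ) (norm_nonneg _) hρ

theorem bx_sum {ι : Type} (s : Finset ι) (f : ι → 𝓞 K) (ρ : ι → ℝ)
    (h : ∀ i ∈ s, f i ∈ Bx K (ρ i)) : ∑ i ∈ s, f i ∈ Bx K (∑ i ∈ s, ρ i) := fun σ => by
  have h1 : σ ((∑ i ∈ s, f i : 𝓞 K) : K) = ∑ i ∈ s, σ (f i : K) := by
    rw [← map_sum]
    congr 1
    exact map_sum (algebraMap (𝓞 K) K) f s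
  rw [h1]
  exact (norm_sum_le _ _).trans (Finset.sum_le_sum fun i hi => h i hi σ)

theorem bx_zero {ρ : ℝ} (hρ : 0 ≤ ρ) : (0 : 𝓞 K) ∈ Bx K ρ := fun σ => by
  have h1 : σ ((0 : 𝓞 K) : K) = 0 := map_zero σ
  rw [h1, norm_zero]
  exact hρ

theorem bx_one {ρ : ℝ} (hρ : 1 ≤ ρ) : (1 : 𝓞 K) ∈ Bx K ρ := fun σ => by
  have h1 : σ ((1 : 𝓞 K) : K) = 1 := map_one σ
  rw [h1, norm_one]
  exact hρ

theorem bx_mono {a : 𝓞 K} {ρ τ : ℝ} (h : ρ ≤ τ) (ha : a ∈ Bx K ρ) : a ∈ Bx K τ := fun σ =>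
  (ha σ).trans h

theorem uu_bx {d : Fin 3 → ℝ} {u : Matrix (Fin 3) (Fin 3) (𝓞 K)} (hu : u ∈ UUn K d)
    (i j : Fin 3) : u i j ∈ Bx K (Real.exp (d j - d i)) := by
  rcases lt_trichotomy i j with h | h | h
  · exact hu.2.2 i j h
  · subst h
    rw [hu.1 i]
    exact bx_one (by rw [sub_self, Real.exp_zero])
  · rw [hu.2.1 i j h]
    exact bx_zero (Real.exp_pos _).le

theorem bx_conj {d : Fin 3 → ℝ} {u G : Matrix (Fin 3) (Fin 3) (𝓞 K)} {c : ℝ} (hc : 0 ≤ c)
    (hu : ∀ i j, u i j ∈ Bx K (Real.exp (d j - d i)))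
    (hG : ∀ i j, G i j ∈ Bx K (c * Real.exp (d i + d j))) (i j : Fin 3) :
    (uᵀ * G * u) i j ∈ Bx K (9 * c * Real.exp (d i + d j)) := by
  have h1 : ∀ b, (uᵀ * G) i b ∈ Bx K (3 * (c * Real.exp (d i + d b))) := fun b => by
    rw [Matrix.mul_apply]
    refine bx_mono (le_of_eq ?_) (bx_sum Finset.univ (fun a => uᵀ i a * G a b)
      (fun a => Real.exp (d i - d a) * (c * Real.exp (d a + d b))) fun a _ =>
        bx_mul (Real.exp_pos _).le (hu a i) (hG a b))
    have h2 : ∀ a : Fin 3, Real.exp (d i - d a) * (c * Real.exp (d a + d b)) =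
        c * Real.exp (d i + d b) := fun a => by
      rw [mul_left_comm, ← Real.exp_add]
      congr 2
      ring
    rw [Finset.sum_congr rfl fun a _ => h2 a]
    rw [Finset.sum_const, Finset.card_univ, Fintype.card_fin, nsmul_eq_mul]
    norm_num
  rw [Matrix.mul_apply]
  refine bx_mono (le_of_eq ?_) (bx_sum Finset.univ (fun b => (uᵀ * G) i b * u b j)
      (fun b => (3 * (c * Real.exp (d i + d b))) * Real.exp (d j - d b)) fun b _ =>
        bx_mul (by positivity) (h1 b) (hu b j))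
  have h2 : ∀ b : Fin 3, (3 * (c * Real.exp (d i + d b))) * Real.exp (d j - d b) =
      3 * (c * Real.exp (d i + d j)) := fun b => by
    rw [mul_assoc, mul_assoc, ← Real.exp_add]
    congr 3
    ring
  rw [Finset.sum_congr rfl fun b _ => h2 b]
  rw [Finset.sum_const, Finset.card_univ, Fintype.card_fin, nsmul_eq_mul]
  push_cast
  ring

end Box

theorem std_conj {R : Type} [CommRing R] {n : ℕ} {P : Ideal R} {f : R[X]}
    {G S u : Matrix (Fin n) (Fin n) R} (hd : u.det = 1) (h : StdP n P f G S) :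
    StdP n P f (uᵀ * G * u) (uᵀ * S * u) := by
  obtain ⟨a, ha1, ha2, ha3⟩ := h
  have hcong : ∀ A B : Matrix (Fin n) (Fin n) R,
      (∀ i j, (A - aᵀ * B * a) i j ∈ P) →
      ∀ i j, (uᵀ * A * u - (a * u)ᵀ * B * (a * u)) i j ∈ P := by
    intro A B hAB i j
    have e1 : uᵀ * A * u - (a * u)ᵀ * B * (a * u) = uᵀ * (A - aᵀ * B * a) * u := by
      rw [Matrix.transpose_mul, Matrix.mul_sub, Matrix.sub_mul]
      simp only [Matrix.mul_assoc]
    rw [e1, Matrix.mul_apply]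
    refine Ideal.sum_mem _ fun b _ => ?_
    refine Ideal.mul_mem_right _ _ ?_
    rw [Matrix.mul_apply]
    exact Ideal.sum_mem _ fun c _ => Ideal.mul_mem_left _ _ (hAB c b)
  refine ⟨a * u, ?_, hcong G _ ha2, hcong S _ ha3⟩
  rw [Matrix.det_mul, hd, mul_one]
  exact ha1

end NCO50

open NCO50 in
/-- NCO. -/
theorem nco : NCOStmt := by
  intro K _ _ C x D d F hC hx hd hF hW
  have hinjA : Function.Injective (algebraMap (𝓞 K) K) := IsFractionRing.injective (𝓞 K) K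
  have h2 : (2 : 𝓞 K) ≠ 0 := by
    intro h
    have h1 := congrArg (algebraMap (𝓞 K) K) h
    rw [map_ofNat, map_zero] at h1
    exact two_ne_zero h1
  have hsubC : PPn C x D d ⊆ PPn (9 * C) x D d := by
    rintro p ⟨h1, h3, h4, h5, h6⟩
    have h9 : C ≤ 9 * C := by linarith
    refine ⟨h1, h3, fun i j => bx_mono ?_ (h4 i j), fun i j => bx_mono ?_ (h5 i j), h6⟩
    · exact mul_le_mul_of_nonneg_right h9 (Real.exp_pos _).le
    · exact mul_le_mul_of_nonneg_right (mul_le_mul_of_nonneg_right h9 hx) (Real.exp_pos _).le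
  constructor
  · choose! p hp using fun (f : (𝓞 K)[X]) (hf : f ∈ PFn C x D F d) => hf.2
    refine Set.Finite.of_injOn (f := p) (t := PPn (9 * C) x D d)
      (fun f hf => hsubC (hp f hf).1) ?_ hW
    intro f hf f' hf' h
    obtain ⟨-, k1, k2, -⟩ := hp f hf
    obtain ⟨-, k3, k4, -⟩ := hp f' hf'
    rw [h] at k1 k2
    rw [k2] at k4
    exact mul_left_cancel₀ (C_ne_zero.2 k1) k4
  · refine Cnt.orbit_cnt K h2 (by norm_num) (PFn C x D F d) (UUn K d) (PPn (9 * C) x D d) hW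
      (fun u hu => ⟨hu.1, hu.2.1⟩) fun f hf => ⟨hF f hf.1, ?_⟩
    obtain ⟨⟨G, S⟩, ⟨k1, k2, k3, k4, k5⟩, k6, k7, -⟩ := hf.2
    refine ⟨G, S, k1, k2, k6, k7, fun u hu => ?_⟩
    have hdu : u.det = 1 := by
      rw [Matrix.det_of_isUpperTriangular (fun i j hij => hu.2.1 i j hij)]
      exact Finset.prod_eq_one fun i _ => hu.1 i
    refine ⟨?_, ?_, fun i j => ?_, fun i j => ?_, fun P hP => std_conj hdu (k5 P hP)⟩
    · show (uᵀ * G * u)ᵀ = uᵀ * G * u
      rw [Matrix.transpose_mul, Matrix.transpose_mul, Matrix.transpose_transpose,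
        show Gᵀ = G from k1, Matrix.mul_assoc]
    · show (uᵀ * S * u)ᵀ = uᵀ * S * u
      rw [Matrix.transpose_mul, Matrix.transpose_mul, Matrix.transpose_transpose,
        show Sᵀ = S from k2, Matrix.mul_assoc]
    · exact bx_conj hC (uu_bx hu) k3 i j
    · have h3 := bx_conj (mul_nonneg hC hx) (uu_bx hu) k4 i j
      rwa [show 9 * (C * x) = 9 * C * x by ring] at h3

end Pool.NF
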