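import Pool.Agent.H2.NF.S3
import Pool.Agent.H50.T1.RCPK

/-!
# NF, row RCPN: reciprocity for a pair of forms over a number field
-/

set_option autoImplicit false

namespace Pool.NF

open Polynomial Matrix Pool.HYP Pool.TOW Pool.AVS Pool.T1 IsDedekindDomain NumberField

/-- RCPN. -/
theorem rcpn (hRCL : RCLZStmt) (hTRF : TRFStmt) (hSEMA : SEMANStmt) (hBAS : BASNStmt)
    (hGDU : GDUNStmt) (hBDP : BDPNStmt) (hLDP : LDPNStmt) (hIZV : IZVStmt)
    (hBD2 : BD2NStmt) (hBDR : BDRNStmt) : RCPNStmt := by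
  classical
  intro K _ _
  obtain ⟨n, ω, hω, hBd⟩ := hBAS K
  obtain ⟨s1, s2, s3, s4⟩ := hSEMA K
  have hRfin : (⋃ p ∈ {p : ℕ | p.Prime ∧ ¬ Good ω p} ∪ {2},
      {P : HeightOneSpectrum (𝓞 K) | Abv p P}).Finite := by
    refine (hBd.union (Set.finite_singleton 2)).biUnion fun p hp => s1 p ?_
    rcases hp with hp | hp
    · exact hp.1.ne_zero
    · rw [Set.mem_singleton_iff.1 hp]
      exact two_ne_zero
  refine ⟨hRfin.toFinset, fun g T ϖ d hTR hϖ A B hA hB hAd hBd' hABs hreal hram hSB hSA hk => ?_⟩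
  choose pp hp1 hp3 hp4 using s3
  have hRam : ∀ p : ℕ, p.Prime → ¬ Good ω p → ∀ P, Abv p P →
      P ∈ hRfin.toFinset := fun p h3 h5 P h6 => by
    rw [Set.Finite.mem_toFinset]
    exact Set.mem_iUnion₂.2 ⟨p, Or.inl ⟨h3, h5⟩, h6⟩
  have hRam2 : ∀ P, Abv 2 P → P ∈ hRfin.toFinset := fun P h6 => by
    rw [Set.Finite.mem_toFinset]
    exact Set.mem_iUnion₂.2 ⟨2, Or.inr rfl, h6⟩
  have hnR : ∀ p : ℕ, p.Prime → p ≠ 2 → Good ω p → ∀ P, Abv p P → P ∉ hRfin.toFinset := by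
    intro p h3 h4 h5 P h6 h7
    rw [Set.Finite.mem_toFinset] at h7
    obtain ⟨q, hq, hqP⟩ := Set.mem_iUnion₂.1 h7
    have hqP' : Abv q P := hqP
    rcases hq with hq | hq
    · have e1 : q = p := (hp4 P q hq.1 hqP').trans (hp4 P p h3 h6).symm
      exact hq.2 (e1 ▸ h5)
    · rw [Set.mem_singleton_iff.1 hq] at hqP'
      exact h4 ((hp4 P p h3 h6).trans (hp4 P 2 Nat.prime_two hqP').symm)
  have hgood : ∀ P ∈ T, Good ω (pp P) := fun P hP => by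
    by_contra h3
    exact Finset.disjoint_left.1 hTR hP (hRam (pp P) (hp1 P) h3 P (hp3 P))
  have hodd : ∀ P ∈ T, pp P ≠ 2 := fun P hP h3 =>
    Finset.disjoint_left.1 hTR hP (hRam2 P (h3 ▸ hp3 P))
  obtain ⟨TF, hTF⟩ : ∃ TF : Finset ℕ, TF = T.image pp := ⟨_, rfl⟩
  have hTF1 : ∀ p ∈ TF, p.Prime ∧ p ≠ 2 ∧ Good ω p := fun p hp => by
    rw [hTF, Finset.mem_image] at hp
    obtain ⟨P, hP, rfl⟩ := hp
    exact ⟨hp1 P, hodd P hP, hgood P hP⟩
  have hTF2 : ∀ p : ℕ, p.Prime → p ∉ TF → ∀ P, Abv p P → P ∉ T :=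
    fun p h3 h5 P h6 h7 => by
      apply h5
      rw [hTF, Finset.mem_image]
      exact ⟨P, h7, (hp4 P p h3 h6).symm⟩
  obtain ⟨t1, t2, t3, t4, t5, t6⟩ := hTRF ℚ K n (2 * g + 1) ω
  have hdne : ∀ C : Matrix (Fin (2 * g + 1)) (Fin (2 * g + 1)) K, C.det ≠ 0 →
      (trm ω C).det ≠ 0 := fun C hC => by
    rw [t2]
    exact mul_ne_zero (pow_ne_zero _ t4) (Algebra.norm_ne_zero_iff.2 hC)
  have hsqd : IsSquare ((trm ω A).det * (trm ω B).det) := by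
    obtain ⟨y, hy⟩ := hABs
    refine ⟨(trd ω).det ^ (2 * g + 1) * Algebra.norm ℚ y, ?_⟩
    rw [t2, t2]
    calc (trd ω).det ^ (2 * g + 1) * Algebra.norm ℚ A.det *
          ((trd ω).det ^ (2 * g + 1) * Algebra.norm ℚ B.det)
        = (trd ω).det ^ (2 * g + 1) * (trd ω).det ^ (2 * g + 1) *
          Algebra.norm ℚ (A.det * B.det) := by
          rw [map_mul]
          ring
      _ = _ := by
          rw [hy, map_mul]
          ring
  have hloc : ∀ p : ℕ, ∃ (m : ℕ) (δ : ZMod p), p ∈ TF → δ ≠ 0 ∧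
      LocZ p (Matrix.fromBlocks (trm ω A) 0 0 (-trm ω B)) m δ ∧
      (IsSquare δ ↔ Even {P | P ∈ T ∧ Abv p P ∧
        ¬ SqQ (RP K P) (ϖ P : K) ((-1) ^ g * d P)}.ncard) := by
    intro p
    by_cases hp : p ∈ TF
    · obtain ⟨h3, h4, h5⟩ := hTF1 p hp
      obtain ⟨m, δ, h6, h7, h8⟩ := hLDP K n g ω p h3 h4 h5 T ϖ d hϖ A B hA hB hAd hBd'
        (fun P h => hSB P (hnR p h3 h4 h5 P h))
        (fun P h h10 => hSA P (hnR p h3 h4 h5 P h) h10)
        (fun P h _ => hk P h)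
      exact ⟨m, δ, fun _ => ⟨h6, h7, h8⟩⟩
    · exact ⟨0, 0, fun h => absurd h hp⟩
  choose m δ hmδ using hloc
  have hev : Even {p | p ∈ TF ∧ ¬ IsSquare (δ p)}.ncard := by
    refine hRCL _ (trm ω A) (trm ω B) (t5 A hA) (t5 B hB) (hdne A hAd) (hdne B hBd') hsqd
      (hBD2 K n _ ω A B fun P hP => hram P (hRam2 P hP)) (hBDR K n _ ω A B hA hB hAd hBd' hreal)
      TF m δ (fun p hp => ⟨(hTF1 p hp).1, (hTF1 p hp).2.1⟩)
      (fun p hp => ⟨(hmδ p hp).2.1, (hmδ p hp).1⟩) (fun p h3 h4 h5 => ?_)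
    by_cases h6 : Good ω p
    · obtain ⟨g1, h7, h8⟩ := hGDU K n (2 * g + 1) ω p h3 h6 A
        fun P hP => hSA P (hnR p h3 h4 h6 P hP) (hTF2 p h3 h5 P hP)
      obtain ⟨g2, h9, h10⟩ := hGDU K n (2 * g + 1) ω p h3 h6 B
        fun P hP => hSB P (hnR p h3 h4 h6 P hP)
      obtain ⟨V, hV, -⟩ := hIZV p h3
      rw [← hV] at h8 h10
      refine ⟨Matrix.fromBlocks g1 0 0 g2, ?_, ?_⟩
      · rw [Matrix.det_fromBlocks_zero₂₁]
        exact mul_ne_zero h7 h9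
      · rw [← hV]
        exact RCPK50.blk V _ _ _ _ h8 h10
    · exact hBDP K n (2 * g + 1) ω p h3 h4 A B hA hB hBd'
        fun P hP => hram P (hRam p h3 h6 P hP)
  obtain ⟨S, hS⟩ : ∃ S : Finset (HeightOneSpectrum (𝓞 K)),
    S = T.filter fun P => ¬ SqQ (RP K P) (ϖ P : K) ((-1) ^ g * d P) := ⟨_, rfl⟩
  have hS1 : {P | P ∈ T ∧ ¬ SqQ (RP K P) (ϖ P : K) ((-1) ^ g * d P)} = (S : Set _) := by
    rw [hS, Finset.coe_filter]
  rw [hS1, Set.ncard_coe_finset]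
  have hcard : S.card = ∑ p ∈ TF, (S.filter fun P => pp P = p).card := by
    refine Finset.card_eq_sum_card_fiberwise fun P hP => ?_
    rw [hS, Finset.coe_filter] at hP
    rw [hTF]
    exact Finset.mem_coe.2 (Finset.mem_image_of_mem _ hP.1)
  have hfib : ∀ p ∈ TF, ({P | P ∈ T ∧ Abv p P ∧
      ¬ SqQ (RP K P) (ϖ P : K) ((-1) ^ g * d P)} : Set _).ncard =
      (S.filter fun P => pp P = p).card := by
    intro p hp
    rw [← Set.ncard_coe_finset]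
    congr 1
    ext P
    rw [Finset.coe_filter, hS]
    simp only [Set.mem_ofPred_eq, Finset.mem_filter]
    constructor
    · rintro ⟨h3, h4, h5⟩
      exact ⟨⟨h3, h5⟩, (hp4 P p (hTF1 p hp).1 h4).symm⟩
    · rintro ⟨⟨h3, h5⟩, rfl⟩
      exact ⟨h3, hp3 P, h5⟩
  rw [hcard, Finset.even_sum_iff_even_card_odd]
  have hset : {i | i ∈ TF ∧ ¬ IsSquare (δ i)} =
      ((TF.filter fun p => Odd (S.filter fun P => pp P = p).card : Finset ℕ) : Set ℕ) := by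
    ext p
    rw [Finset.coe_filter]
    simp only [Set.mem_ofPred_eq]
    refine and_congr_right fun hp => ?_
    rw [(hmδ p hp).2.2, hfib p hp, Nat.not_even_iff_odd]
  rw [hset, Set.ncard_coe_finset] at hev
  exact hev

/-- RCPN from the modules. -/
theorem rcpna : RCPNAStmt :=
  fun h1 h2 h3 h4 h5 h6 h7 _ h9 h10 h11 => rcpn h1 h2 h3 h4 h5 h6 h7 h9 h10 h11

end Pool.NF
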